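import Pool.Agent.H608R4.KM.Stm

/-! KM-KI (job of helper608). -/

set_option autoImplicit false

namespace Pool.Agent.TH643.KM

open Finset Pool.Agent.H608R4.KM

lemma sq_sum {n : ℕ} (f g : Fin n → ℝ) :
    ∑ i, ∑ j, (f i * f j + g i * g j) = (∑ i, f i) ^ 2 + (∑ i, g i) ^ 2 := by
  simp only [sum_add_distrib]
  rw [pow_two, pow_two, sum_mul_sum, sum_mul_sum]

lemma K_sq {x y x' y' : ℝ} (h : x ^ 2 + y ^ 2 = 1) (h' : x' ^ 2 + y' ^ 2 = 1) :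
    K (x * x' + y * y') ^ 2 = 7 / 32 - 3 / 8 * (x * x' + y * y')
      + 1 / 4 * ((x ^ 2 - y ^ 2) * (x' ^ 2 - y' ^ 2) + (2 * x * y) * (2 * x' * y'))
      - 1 / 8 * ((x ^ 3 - 3 * x * y ^ 2) * (x' ^ 3 - 3 * x' * y' ^ 2) +
        (3 * x ^ 2 * y - y ^ 3) * (3 * x' ^ 2 * y' - y' ^ 3))
      + 1 / 32 * ((x ^ 4 - 6 * x ^ 2 * y ^ 2 + y ^ 4) * (x' ^ 4 - 6 * x' ^ 2 * y' ^ 2 + y' ^ 4) +
        (4 * x ^ 3 * y - 4 * x * y ^ 3) * (4 * x' ^ 3 * y' - 4 * x' * y' ^ 3)) := by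
  have e2 : (x ^ 2 - y ^ 2) * (x' ^ 2 - y' ^ 2) + (2 * x * y) * (2 * x' * y') =
      2 * (x * x' + y * y') ^ 2 - 1 := by
    linear_combination -(x' ^ 2 + y' ^ 2) * h - h'
  have e3 : (x ^ 3 - 3 * x * y ^ 2) * (x' ^ 3 - 3 * x' * y' ^ 2) +
        (3 * x ^ 2 * y - y ^ 3) * (3 * x' ^ 2 * y' - y' ^ 3) =
      4 * (x * x' + y * y') ^ 3 - 3 * (x * x' + y * y') := by
    linear_combination -3 * (x * x' + y * y') * ((x' ^ 2 + y' ^ 2) * h + h')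
  have e4 : (x ^ 4 - 6 * x ^ 2 * y ^ 2 + y ^ 4) * (x' ^ 4 - 6 * x' ^ 2 * y' ^ 2 + y' ^ 4) +
        (4 * x ^ 3 * y - 4 * x * y ^ 3) * (4 * x' ^ 3 * y' - 4 * x' * y' ^ 3) =
      8 * (x * x' + y * y') ^ 4 - 8 * (x * x' + y * y') ^ 2 + 1 := by
    linear_combination (-(8 * (x * x' + y * y') ^ 2 -
      ((x ^ 2 + y ^ 2) * (x' ^ 2 + y' ^ 2) + 1))) * ((x' ^ 2 + y' ^ 2) * h + h')
  rw [e2, e3, e4]
  unfold K
  ring

lemma sum_K {n : ℕ} (x y : Fin n → ℝ) (hu : ∀ i, x i ^ 2 + y i ^ 2 = 1) :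
    ∑ i, ∑ j, K (u x y i j) ^ 2 = 7 / 32 * (n : ℝ) ^ 2 - 3 / 8 * R1 x y + 1 / 4 * R2 x y
      - 1 / 8 * R3 x y + 1 / 32 * R4 x y := by
  have h1 : R1 x y = ∑ i, ∑ j, (x i * x j + y i * y j) := (sq_sum x y).symm
  have h2 : R2 x y = ∑ i, ∑ j, ((x i ^ 2 - y i ^ 2) * (x j ^ 2 - y j ^ 2) +
      (2 * x i * y i) * (2 * x j * y j)) :=
    (sq_sum (fun i => x i ^ 2 - y i ^ 2) (fun i => 2 * x i * y i)).symm
  have h3 : R3 x y = ∑ i, ∑ j, ((x i ^ 3 - 3 * x i * y i ^ 2) * (x j ^ 3 - 3 * x j * y j ^ 2) +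
      (3 * x i ^ 2 * y i - y i ^ 3) * (3 * x j ^ 2 * y j - y j ^ 3)) :=
    (sq_sum (fun i => x i ^ 3 - 3 * x i * y i ^ 2) (fun i => 3 * x i ^ 2 * y i - y i ^ 3)).symm
  have h4 : R4 x y = ∑ i, ∑ j, ((x i ^ 4 - 6 * x i ^ 2 * y i ^ 2 + y i ^ 4) *
      (x j ^ 4 - 6 * x j ^ 2 * y j ^ 2 + y j ^ 4) +
      (4 * x i ^ 3 * y i - 4 * x i * y i ^ 3) * (4 * x j ^ 3 * y j - 4 * x j * y j ^ 3)) :=
    (sq_sum (fun i => x i ^ 4 - 6 * x i ^ 2 * y i ^ 2 + y i ^ 4)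
      (fun i => 4 * x i ^ 3 * y i - 4 * x i * y i ^ 3)).symm
  have h0 : (n : ℝ) ^ 2 = ∑ _i : Fin n, ∑ _j : Fin n, (1 : ℝ) := by
    simp [pow_two]
  rw [h0, h1, h2, h3, h4]
  simp only [mul_sum, ← sum_sub_distrib, ← sum_add_distrib]
  refine sum_congr rfl fun i _ => sum_congr rfl fun j _ => ?_
  unfold u
  rw [K_sq (hu i) (hu j)]
  ring

theorem t_KI (h1 : S_DB) (h2 : S_BU) : S_KI := by
  intro n a x y hE
  obtain ⟨hdeg, -, hzo, -, -⟩ := h1 n a hE.gr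
  obtain ⟨-, -, hBU⟩ := h2 n a x y hE
  have hK := sum_K x y hE.unit
  have hb : ∑ i, ∑ j, b a i j ≤ (1 / 4 + dl) * (n : ℝ) ^ 2 := by
    calc ∑ i, ∑ j, b a i j ≤ ∑ _i : Fin n, (1 / 4 + dl) * (n : ℝ) :=
          sum_le_sum fun i _ => hdeg i
      _ = (1 / 4 + dl) * (n : ℝ) ^ 2 := by
          rw [sum_const, card_univ, Fintype.card_fin, nsmul_eq_mul]
          ring
  have hL : Lam a x y = ∑ i, ∑ j, b a i j - ∑ i, ∑ j, b a i j * (2 * K (u x y i j)) +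
      ∑ i, ∑ j, K (u x y i j) ^ 2 := by
    unfold Lam
    simp only [← sum_sub_distrib, ← sum_add_distrib]
    refine sum_congr rfl fun i _ => sum_congr rfl fun j _ => ?_
    rcases hzo i j with h | h <;> rw [h] <;> ring
  rw [hL, hK]
  linarith

end Pool.Agent.TH643.KM
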